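import Pool.Agent.H31.EH.Targets
import Pool.Agent.H43.ES.LMP
import Pool.Agent.H8.EST.LCP

/-!
# Board ehf (MP_e21eee_nt, exponent one half), row TT1: stars on lines with few stars (helper40)
-/

set_option autoImplicit false

open Finset MeasureTheory

namespace Pool.Agent.H40.EHF

open Pool.Agent.H24.CL Pool.Agent.H24.LV Pool.Agent.H26.ES Pool.Agent.H60.LVP
  Pool.Agent.H31.EH

theorem DS_sing (p : ℕ) : DS {p} = p := by
  unfold DS
  exact Finset.prod_singleton _ _

open Classical in
theorem pf_TT1 (hCO : L_CO) (hAI : L_AI) (hCOL : T_COL) (hMEA : T_MEA) : T_TT1 := by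
  intro k p S V Ge Gd P m τ Ω kap hpS hSD hkap
  have hdis : Disjoint S {p} := Finset.disjoint_singleton_right.2 hpS
  obtain ⟨-, hC2, hC3, -⟩ := hCOL k S {p} V Ge Gd P m τ Ω hdis hSD
  obtain ⟨-, -, -, -, -, -, hMod, hMsd, -⟩ := hMEA k S {p} V Ge Gd P m τ Ω hSD
  have hU : S ∪ {p} = insert p S := by
    rw [Finset.union_comm]
    rfl
  have hpi : p ∈ S ∪ {p} := Finset.mem_union_right _ (Finset.mem_singleton_self p)
  have hpr : ∀ q ∈ S ∪ {p}, q.Prime := fun q hq => (hSD.pr q hq).1
  have hp : p.Prime := hpr p hpi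
  have hS : ∀ q ∈ S, q.Prime := fun q hq => hpr q (Finset.mem_union_left _ hq)
  have hD : 0 < DS S := DS_pos S hS
  have hp1 : 1 ≤ p := hp.pos
  have hK := KN_ge k (by have := hSD.hk; omega)
  have hΩ := hSD.hΩ
  have hDU : DS (S ∪ {p}) = p * DS S := by rw [hU, DS_insert S p hpS]
  have hDp : DS {p} = p := DS_sing p
  obtain ⟨D, hDe⟩ : ∃ D, D = DS S := ⟨_, rfl⟩
  have hp0 : (0 : ℝ) < p := by exact_mod_cast hp1
  have hD0 : (0 : ℝ) < D := by rw [hDe]; exact_mod_cast hD
  obtain ⟨Lo, hLo⟩ : ∃ Lo : ℕ → Set (X k), Lo = fun x => {b : X k | StarP (S ∪ {p}) V Gd b x ∧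
      od S {p} V Gd b (x % DS S) < kap ∧ sd S {p} V Gd b (x % DS S) < kap} := ⟨_, rfl⟩
  have hmLo : ∀ x b, b ∈ Lo x ↔ StarP (S ∪ {p}) V Gd b x ∧
      od S {p} V Gd b (x % DS S) < kap ∧ sd S {p} V Gd b (x % DS S) < kap := by
    intro x b; rw [hLo]; exact Iff.rfl
  have hLom : ∀ x, MeasurableSet (Lo x) := by
    intro x
    have h1 := Pool.Agent.H43.ES.meas_StarP (S ∪ {p}) hpr hSD.mV hSD.mG x
    have h2 : MeasurableSet {b : X k | od S {p} V Gd b (x % DS S) < kap} :=
      measurableSet_lt (hMod _) measurable_const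
    have h3 : MeasurableSet {b : X k | sd S {p} V Gd b (x % DS S) < kap} :=
      measurableSet_lt (hMsd _) measurable_const
    rw [hLo]
    exact h1.inter (h2.inter h3)
  -- the base point of a star lies on a good line
  have hGp : ∀ y < DS S, ∀ z : ℕ, ∀ b : X k, StarP (S ∪ {p}) V Gd b (y + DS S * z) →
      phi (DS S) y b ∈ Ge p := by
    intro y hy z b h
    have h2 := hSD.sub p hpi _ (h.2 p hpi)
    rw [hDU, Nat.mul_div_cancel_left _ hp.pos, Nat.add_mul_mod_self_left,
      Nat.mod_eq_of_lt hy] at h2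
    exact h2
  -- for fixed y
  have key : ∀ y < DS S, ∑ z ∈ range p, volume.real (Lo (y + DS S * z)) ≤
      (1 / (D : ℝ) ^ (KN k)) * ((D : ℝ) ^ k * (2 * kap * p) * volume.real (Ge p)) := by
    intro y hy
    have hKm : ∀ κ : X k, κ ∈ Kr k (DS S) y ↔ phi (DS S) y κ = 0 :=
      (hCO.2.2.2.1 k (DS S) y hD).2
    have hKr : (Kr k (DS S) y).Nonempty := by
      rw [← Finset.card_pos, (hCO.2.2.2.1 k (DS S) y hD).1]
      exact pow_pos hD _
    have e1 : ∑ z ∈ range p, volume.real (Lo (y + DS S * z)) =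
        (1 / ((Kr k (DS S) y).card : ℝ)) * ∫ a : X k, ∑ z ∈ range p,
          (((Kr k (DS S) y).filter fun κ => a + κ ∈ Lo (y + DS S * z)).card : ℝ) := by
      rw [integral_finsetSum _ (fun z _ => card_int _ _ (hLom _)), Finset.mul_sum]
      exact Finset.sum_congr rfl fun z _ => vol_avg hAI _ hKr _ (hLom _)
    rw [e1, (hCO.2.2.2.1 k (DS S) y hD).1]
    push_cast
    rw [← hDe]
    apply mul_le_mul_of_nonneg_left _ (by positivity)
    rw [hDe]
    have hGv : volume.real {b : X k | phi (DS S) y b ∈ Ge p} = volume.real (Ge p) :=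
      vol_phi (DS S) y hD (hSD.mE p hpi)
    have hGm : MeasurableSet {b : X k | phi (DS S) y b ∈ Ge p} :=
      (phiM (DS S) y hD) (hSD.mE p hpi)
    have hmod : ∀ z : ℕ, (y + DS S * z) % DS S = y := fun z => by
      rw [Nat.add_mul_mod_self_left, Nat.mod_eq_of_lt hy]
    have hpt : ∀ a : X k, ∑ z ∈ range p,
        (((Kr k (DS S) y).filter fun κ => a + κ ∈ Lo (y + DS S * z)).card : ℝ) ≤
        ((DS S : ℕ) : ℝ) ^ k * (2 * kap * p) *
          ({b : X k | phi (DS S) y b ∈ Ge p} : Set (X k)).indicator (fun _ => (1 : ℝ)) a := by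
      intro a
      have hDk : (0 : ℝ) ≤ ((DS S : ℕ) : ℝ) ^ k * (2 * kap * p) := by positivity
      set Z := (range p).filter fun z => ∃ κ ∈ Kr k (DS S) y, a + κ ∈ Lo (y + DS S * z) with hZ
      by_cases hne : Z.Nonempty
      · obtain ⟨z₀, hz₀⟩ := hne
        obtain ⟨hz₀p, κ₀, hκ₀, hb₀⟩ := Finset.mem_filter.1 hz₀
        obtain ⟨hst, hod, hsd⟩ := (hmLo _ _).1 hb₀
        rw [hmod] at hod hsd
        have hκ₀' := (hKm κ₀).1 hκ₀
        have hc : phi (DS S) y a ∈ Ge p := by
          have h1 := hGp y hy z₀ _ hst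
          rwa [map_add, hκ₀', add_zero] at h1
        rw [Set.indicator_of_mem (show a ∈ {b : X k | phi (DS S) y b ∈ Ge p} from hc), mul_one]
        -- the number of the positions
        set A1 := (range (DS {p})).filter fun z => ∃ κ ∈ Kr k (DS S) y, κ ∉ H k (DS S) 1 ∧
          StarP (S ∪ {p}) V Gd (a + κ₀ + κ) (y + DS S * z) with hA1
        set A2 := (range (DS {p})).filter fun z =>
          StarP (S ∪ {p}) V Gd (a + κ₀) (y + DS S * z) with hA2
        have c1 : (A1.card : ℝ) < kap * p := by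
          have h1 : (A1.card : ℝ) / (DS {p} : ℕ) < kap := hod
          rw [hDp, div_lt_iff₀ hp0] at h1
          exact h1
        have c2 : (A2.card : ℝ) < kap * p := by
          have h1 : (A2.card : ℝ) / (DS {p} : ℕ) < kap := hsd
          rw [hDp, div_lt_iff₀ hp0] at h1
          exact h1
        have hsub : Z ⊆ A1 ∪ A2 := by
          intro z hz
          obtain ⟨hzp, κ, hκ, hb⟩ := Finset.mem_filter.1 hz
          have hstz := ((hmLo _ _).1 hb).1
          rw [Finset.mem_union]
          by_cases hH : κ₀ - κ ∈ H k (DS S) 1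
          · right
            rw [hA2, Finset.mem_filter, hDp]
            refine ⟨hzp, ?_⟩
            have h1 := hC3 (y + DS S * z) (a + κ) (κ₀ - κ) hH hstz
            have h2 : a + κ + (κ₀ - κ) = a + κ₀ := by abel
            rwa [h2] at h1
          · left
            rw [hA1, Finset.mem_filter, hDp]
            refine ⟨hzp, κ - κ₀, ?_, ?_, ?_⟩
            · rw [hKm, map_sub, (hKm κ).1 hκ, hκ₀', sub_zero]
            · intro hh
              apply hH
              have h1 := neg_mem hh
              rwa [neg_sub] at h1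
            · have h2 : a + κ₀ + (κ - κ₀) = a + κ := by abel
              rw [h2]
              exact hstz
        have hZc : (Z.card : ℝ) ≤ 2 * kap * p := by
          have h1 := (Finset.card_le_card hsub).trans (Finset.card_union_le _ _)
          have h2 : (Z.card : ℝ) ≤ (A1.card : ℝ) + (A2.card : ℝ) := by exact_mod_cast h1
          linarith
        -- every position
        have hz1 : ∀ z ∈ range p,
            (((Kr k (DS S) y).filter fun κ => a + κ ∈ Lo (y + DS S * z)).card : ℝ) ≤
            if z ∈ Z then ((DS S : ℕ) : ℝ) ^ k else 0 := by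
          intro z hz
          by_cases hzZ : z ∈ Z
          · rw [if_pos hzZ]
            have h1 : ((Kr k (DS S) y).filter fun κ => a + κ ∈ Lo (y + DS S * z)).card ≤
                DS S ^ k := by
              apply Pool.Agent.H8.EST.card_coset hD
              intro κ hκ κ' hκ'
              rw [Finset.mem_filter] at hκ hκ'
              exact hC2 y hy z (by rw [hDp]; exact Finset.mem_range.1 hz) a κ hκ.1 κ' hκ'.1
                ((hmLo _ _).1 hκ.2).1 ((hmLo _ _).1 hκ'.2).1
            exact_mod_cast h1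
          · rw [if_neg hzZ]
            have h1 : ((Kr k (DS S) y).filter fun κ => a + κ ∈ Lo (y + DS S * z)) = ∅ := by
              rw [Finset.filter_eq_empty_iff]
              intro κ hκ hh
              exact hzZ (Finset.mem_filter.2 ⟨hz, κ, hκ, hh⟩)
            rw [h1]
            simp
        refine (Finset.sum_le_sum hz1).trans ?_
        rw [← Finset.sum_filter, Finset.sum_const, nsmul_eq_mul]
        have h3 : (range p).filter (fun z => z ∈ Z) = Z := by
          ext z
          rw [Finset.mem_filter]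
          exact ⟨fun h => h.2, fun h => ⟨(Finset.mem_filter.1 h).1, h⟩⟩
        rw [h3, mul_comm]
        exact mul_le_mul_of_nonneg_left hZc (by positivity)
      · have h1 : ∀ z ∈ range p,
            (((Kr k (DS S) y).filter fun κ => a + κ ∈ Lo (y + DS S * z)).card : ℝ) = 0 := by
          intro z hz
          rw [Nat.cast_eq_zero, Finset.card_eq_zero, Finset.filter_eq_empty_iff]
          intro κ hκ hh
          exact hne ⟨z, Finset.mem_filter.2 ⟨hz, κ, hκ, hh⟩⟩
        rw [Finset.sum_eq_zero h1]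
        apply mul_nonneg hDk
        apply Set.indicator_nonneg
        intro _ _
        norm_num
    refine (integral_mono (integrable_finsetSum _ fun z _ => card_int _ _ (hLom _)) ?_ hpt).trans
      (le_of_eq ?_)
    · exact ((integrable_const _).indicator hGm).const_mul _
    · rw [integral_const_mul, integral_indicator_const _ hGm, hGv]
      simp only [smul_eq_mul, mul_one]
  -- sum over y
  have hsum : ∑ x ∈ range (p * DS S), volume.real (Lo x) ≤
      D * ((1 / (D : ℝ) ^ (KN k)) * ((D : ℝ) ^ k * (2 * kap * p) * volume.real (Ge p))) := by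
    rw [sum_mod _ p (DS S) hD]
    refine (Finset.sum_le_sum fun y hy => key y (Finset.mem_range.1 hy)).trans (le_of_eq ?_)
    rw [Finset.sum_const, Finset.card_range, nsmul_eq_mul, hDe]
  have hms := hSD.ms p hpi
  unfold mass
  rw [hDU]
  have hLs : ∑ x ∈ range (p * DS S), volume.real {b : X k | StarP (S ∪ {p}) V Gd b x ∧
      od S {p} V Gd b (x % DS S) < kap ∧ sd S {p} V Gd b (x % DS S) < kap} =
      ∑ x ∈ range (p * DS S), volume.real (Lo x) := by rw [hLo]
  rw [hLs]
  push_cast
  rw [← hDe]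
  have hpow1 : (D : ℝ) ^ (KN k) = (D : ℝ) ^ (KN k - k) * (D : ℝ) ^ k := by
    rw [← pow_add]; congr 1; omega
  rw [← hDe] at hsum
  calc ((p : ℝ) * D) ^ (KN k - k) * (1 / ((p : ℝ) * D) *
        ∑ x ∈ range (p * D), volume.real (Lo x))
      ≤ ((p : ℝ) * D) ^ (KN k - k) * (1 / ((p : ℝ) * D) *
        (D * ((1 / (D : ℝ) ^ (KN k)) * ((D : ℝ) ^ k * (2 * kap * p) * volume.real (Ge p))))) := by
        apply mul_le_mul_of_nonneg_left _ (by positivity)
        exact mul_le_mul_of_nonneg_left hsum (by positivity)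
    _ = 2 * kap * ((p : ℝ) ^ (KN k - k) * volume.real (Ge p)) := by
        rw [hpow1, mul_pow]
        field_simp
    _ ≤ 2 * kap * Ω := mul_le_mul_of_nonneg_left hms (by positivity)

end Pool.Agent.H40.EHF
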