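import Pool.Agent.H31.EH.Targets
import Pool.Agent.H31.EST.RIP
import Pool.Agent.H43.ES.LMP

/-!
# Board ehf (MP_e21eee_nt, exponent one half), row BAS: the family of the single primes (helper40)
-/

set_option autoImplicit false

open Finset MeasureTheory

namespace Pool.Agent.H40.EHF

open Pool.Agent.H24.CL Pool.Agent.H24.LV Pool.Agent.H26.ES Pool.Agent.H31.EH

theorem DS_one (p : ℕ) : DS {p} = p := by
  unfold DS
  exact Finset.prod_singleton _ _

theorem DS_emp : DS ∅ = 1 := by
  unfold DS
  exact Finset.prod_empty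

theorem star_sing {k p : ℕ} (hp : 1 ≤ p) {V : Set (X k)} {Gd : ℕ → ℕ → Set (X k)} (b : X k)
    (x : ℕ) : StarP {p} V Gd b x ↔ phi p x b ∈ V ∧ b ∈ Gd p x := by
  unfold StarP
  rw [DS_one]
  simp only [Finset.mem_singleton, forall_eq, Nat.div_self hp, Nat.mod_one, Nat.div_one,
    Pool.Agent.H84.LVP.phi_one]

theorem den_emp {k : ℕ} {V : Set (X k)} {Gd : ℕ → ℕ → Set (X k)} {c : X k} (hc : c ∈ V) :
    den ∅ V Gd c = 1 := by
  classical
  unfold den
  have h1 : (range (DS ∅)).filter (fun x => StarP ∅ V Gd c x) = range (DS ∅) := by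
    apply Finset.filter_true_of_mem
    intro x hx
    rw [DS_emp, Finset.mem_range, Nat.lt_one_iff] at hx
    subst hx
    refine ⟨?_, fun p hp => absurd hp (Finset.notMem_empty p)⟩
    rw [DS_emp, Pool.Agent.H84.LVP.phi_one]
    exact hc
  rw [h1, Finset.card_range, DS_emp]
  simp

theorem pf_BAS (hMEA : T_MEA) : T_BAS := by
  classical
  intro k Q V Ge Gd P m τ Ω ρ hDat hρ hρ1 hmass
  refine ⟨Q.image fun p => {p}, ?_, ?_, ?_⟩
  · rw [Finset.card_image_of_injective _ Finset.singleton_injective]
  · intro S hS
    obtain ⟨p, hp, rfl⟩ := Finset.mem_image.1 hS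
    refine ⟨Finset.singleton_subset_iff.2 hp, Finset.card_singleton p, ?_⟩
    have hsub : ({p} : Finset ℕ) ⊆ Q := Finset.singleton_subset_iff.2 hp
    have hd := Pool.Agent.H31.EST.SDatP_mono hDat.dat hsub
    have hpp : p.Prime := (hDat.dat.pr p hp).1
    have hp1 : 1 ≤ p := hpp.pos
    have hp0 : (0 : ℝ) < p := by exact_mod_cast hp1
    obtain ⟨hmS, hmd, hmG, -⟩ := hMEA k {p} {p} V Ge Gd P m τ Ω
      (by rw [Finset.union_self]; exact hd)
    obtain ⟨St, hSt⟩ : ∃ St : ℕ → Set (X k), St = fun x => {b : X k | StarP {p} V Gd b x} :=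
      ⟨_, rfl⟩
    have hmSt : ∀ x b, b ∈ St x ↔ StarP {p} V Gd b x := by
      intro x b; rw [hSt]; exact Iff.rfl
    have hStm : ∀ x, MeasurableSet (St x) := by
      intro x; rw [hSt]; exact hmS x
    obtain ⟨B, hB⟩ : ∃ B : Set (X k), B = {b : X k | den {p} V Gd b < ρ / 2} := ⟨_, rfl⟩
    have hmB : ∀ b, b ∈ B ↔ den {p} V Gd b < ρ / 2 := by
      intro b; rw [hB]; exact Iff.rfl
    have hBm : MeasurableSet B := by
      rw [hB]; exact measurableSet_lt hmd measurable_const
    -- few stars with small density
    have hpt : ∀ b : X k, ∑ x ∈ range p, (St x ∩ B).indicator (fun _ => (1 : ℝ)) b ≤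
        p * (ρ / 2) * (Ge p).indicator (fun _ => (1 : ℝ)) b := by
      intro b
      by_cases hb : ∃ x ∈ range p, b ∈ St x ∩ B
      · obtain ⟨x₀, hx₀, hb1, hb2⟩ := hb
        have hGe : b ∈ Ge p := hDat.dat.sub p hp _ (((star_sing hp1 b x₀).1
          ((hmSt x₀ b).1 hb1)).2)
        rw [Set.indicator_of_mem hGe, mul_one]
        have h1 := (hmB b).1 hb2
        have h2 : ∑ x ∈ range p, (St x ∩ B).indicator (fun _ => (1 : ℝ)) b ≤
            p * den {p} V Gd b := by
          have h3 : (p : ℝ) * den {p} V Gd b =
              ∑ x ∈ range p, (St x).indicator (fun _ => (1 : ℝ)) b := by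
            unfold den
            rw [DS_one, mul_div_cancel₀ _ hp0.ne', Finset.card_filter]
            push_cast
            refine Finset.sum_congr rfl fun x _ => ?_
            by_cases h : StarP {p} V Gd b x
            · rw [Set.indicator_of_mem ((hmSt x b).2 h), if_pos h]
            · rw [Set.indicator_of_notMem (fun h' => h ((hmSt x b).1 h')), if_neg h]
          rw [h3]
          refine Finset.sum_le_sum fun x _ => ?_
          apply Set.indicator_le_indicator_of_subset Set.inter_subset_left
          intro _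
          norm_num
        refine h2.trans ?_
        exact mul_le_mul_of_nonneg_left h1.le hp0.le
      · have h1 : ∀ x ∈ range p, (St x ∩ B).indicator (fun _ => (1 : ℝ)) b = 0 := by
          intro x hx
          apply Set.indicator_of_notMem
          intro hh
          exact hb ⟨x, hx, hh⟩
        rw [Finset.sum_eq_zero h1]
        apply mul_nonneg (by positivity)
        apply Set.indicator_nonneg
        intro _ _
        norm_num
    have hsmall : ∑ x ∈ range p, volume.real (St x ∩ B) ≤ p * (ρ / 2) * volume.real (Ge p) := by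
      have h1 : ∑ x ∈ range p, volume.real (St x ∩ B) =
          ∫ b : X k, ∑ x ∈ range p, (St x ∩ B).indicator (fun _ => (1 : ℝ)) b := by
        rw [integral_finsetSum _ (fun x _ =>
          (integrable_const _).indicator ((hStm x).inter hBm))]
        refine Finset.sum_congr rfl fun x _ => ?_
        rw [integral_indicator_const _ ((hStm x).inter hBm)]
        simp
      have h2 : (p : ℝ) * (ρ / 2) * volume.real (Ge p) =
          ∫ b : X k, p * (ρ / 2) * (Ge p).indicator (fun _ => (1 : ℝ)) b := by
        rw [integral_const_mul, integral_indicator_const _ (hDat.dat.mE p hp)]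
        simp
      rw [h1, h2]
      refine integral_mono ?_ ?_ hpt
      · exact integrable_finsetSum _ fun x _ =>
          (integrable_const _).indicator ((hStm x).inter hBm)
      · exact ((integrable_const _).indicator (hDat.dat.mE p hp)).const_mul _
    -- good stars
    have hgood : ∀ x ∈ range p, volume.real (St x) ≤
        volume.real {b : X k | Good {p} V Gd (ρ / 2) b x} + volume.real (St x ∩ B) := by
      intro x hx
      have hxp := Finset.mem_range.1 hx
      have h1 : St x ⊆ {b : X k | Good {p} V Gd (ρ / 2) b x} ∪ (St x ∩ B) := by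
        intro b hb
        by_cases hbB : b ∈ B
        · exact Or.inr ⟨hb, hbB⟩
        · left
          have hst := (hmSt x b).1 hb
          have hstV := ((star_sing hp1 b x).1 hst).1
          have hden : ρ / 2 ≤ den {p} V Gd b := not_lt.1 fun h => hbB ((hmB b).2 h)
          refine ⟨hst, ?_⟩
          intro S' hS'
          rcases Finset.subset_singleton_iff.1 hS' with h0 | h0
          · subst h0
            rw [DS_one, DS_emp, Nat.div_one, Nat.mod_eq_of_lt hxp, den_emp hstV]
            linarith
          · subst h0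
            rw [DS_one, Nat.div_self hp1, Nat.mod_one, Pool.Agent.H84.LVP.phi_one]
            exact hden
      exact (measureReal_mono h1).trans (measureReal_union_le _ _)
    have hhyp := hmass p hp
    have hset : ∑ y ∈ range p, volume.real {a : X k | a ∈ Gd p y ∧ phi p y a ∈ V} =
        ∑ y ∈ range p, volume.real (St y) := by
      refine Finset.sum_congr rfl fun y _ => ?_
      congr 1
      ext b
      rw [hmSt, star_sing hp1]
      exact and_comm
    rw [hset] at hhyp
    have hms := hDat.dat.ms p hp
    unfold mass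
    rw [DS_one]
    have hs1 : ∑ x ∈ range p, volume.real (St x) ≤
        ∑ x ∈ range p, volume.real {b : X k | Good {p} V Gd (ρ / 2) b x} +
          p * (ρ / 2) * volume.real (Ge p) := by
      have h1 := Finset.sum_le_sum hgood
      rw [Finset.sum_add_distrib] at h1
      linarith
    have hs2 : (p : ℝ) ^ (KN k - k) * ((1 / (p : ℝ)) * ∑ x ∈ range p, volume.real (St x)) ≤
        (p : ℝ) ^ (KN k - k) * ((1 / (p : ℝ)) *
          (∑ x ∈ range p, volume.real {b : X k | Good {p} V Gd (ρ / 2) b x} +
          p * (ρ / 2) * volume.real (Ge p))) := by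
      apply mul_le_mul_of_nonneg_left _ (by positivity)
      exact mul_le_mul_of_nonneg_left hs1 (by positivity)
    have hs3 : (p : ℝ) ^ (KN k - k) * ((1 / (p : ℝ)) *
          (∑ x ∈ range p, volume.real {b : X k | Good {p} V Gd (ρ / 2) b x} +
          p * (ρ / 2) * volume.real (Ge p))) =
        (p : ℝ) ^ (KN k - k) * ((1 / (p : ℝ)) *
          ∑ x ∈ range p, volume.real {b : X k | Good {p} V Gd (ρ / 2) b x}) +
          ρ / 2 * ((p : ℝ) ^ (KN k - k) * volume.real (Ge p)) := by
      field_simp
    have hs4 : ρ / 2 * ((p : ℝ) ^ (KN k - k) * volume.real (Ge p)) ≤ ρ / 2 * Ω :=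
      mul_le_mul_of_nonneg_left hms (by positivity)
    rw [hs3] at hs2
    have hs5 : ρ / 2 * Ω = ρ * Ω - ρ / 2 * Ω := by ring
    linarith
  · intro S hS S' hS' hne
    obtain ⟨p, hp, rfl⟩ := Finset.mem_image.1 hS
    obtain ⟨p', hp', rfl⟩ := Finset.mem_image.1 hS'
    rw [Finset.disjoint_singleton]
    intro h
    exact hne (by rw [h])

end Pool.Agent.H40.EHF
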